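import Pool.Agent.Helper39.ANG.Defs2
import Pool.Agent.Helper6.ANG.Kite

/-! # The volume of a circle pattern (row VOL) -/

set_option autoImplicit false

namespace ANG
open Finset Filter Topology MeasureTheory Pool.Agent.Helper39.VC Pool.Agent.Helper39.DT
open Pool.Agent.Helper5.TV (lob ls ls_int integral_ls lob_zero lob_pi_div_two)
open scoped Classical

theorem lob_posV {t : ℝ} (h0 : 0 < t) (h1 : t < Real.pi/2) : 0 < lob t := by
  have hpi := Real.pi_pos
  rcases le_total t (Real.pi/6) with h | h
  · have h2 : 0 < ∫ u in (0:ℝ)..t, (- ls u) := by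
      apply intervalIntegral.intervalIntegral_pos_of_pos_on (ls_int _ _).neg _ h0
      intro u hu
      obtain ⟨a, b⟩ := hu
      have p1 : 0 < Real.sin u := Real.sin_pos_of_pos_of_lt_pi (by linarith) (by linarith)
      have p2 : Real.sin u < Real.sin (Real.pi/6) :=
        Real.sin_lt_sin_of_lt_of_le_pi_div_two (by linarith) (by linarith) (by linarith)
      rw [Real.sin_pi_div_six] at p2
      have := Real.log_neg (x := 2 * Real.sin u) (by linarith) (by linarith)
      change 0 < - Real.log (2 * Real.sin u)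
      linarith
    rw [intervalIntegral.integral_neg, integral_ls, lob_zero] at h2
    linarith
  · have h2 : 0 < ∫ u in t..(Real.pi/2), ls u := by
      apply intervalIntegral.intervalIntegral_pos_of_pos_on (ls_int _ _) _ h1
      intro u hu
      obtain ⟨a, b⟩ := hu
      have p2 : Real.sin (Real.pi/6) < Real.sin u :=
        Real.sin_lt_sin_of_lt_of_le_pi_div_two (by linarith) b.le (by linarith)
      rw [Real.sin_pi_div_six] at p2
      exact Real.log_pos (by linarith)
    rw [integral_ls, lob_pi_div_two] at h2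
    linarith

theorem hh_zeroV : hh 0 = 0 := by
  unfold hh
  rw [lob_zero, sub_zero, lob_pi_div_two]; ring

theorem hh_halfV : hh (Real.pi/2) = 0 := by
  unfold hh
  rw [sub_self, lob_zero, lob_pi_div_two]; ring

theorem hh_posV {t : ℝ} (h0 : 0 < t) (h1 : t < Real.pi/2) : 0 < hh t := by
  unfold hh
  have a := lob_posV h0 h1
  have b := lob_posV (t := Real.pi/2 - t) (by linarith) (by linarith)
  linarith

variable {w : List (Lt Unit)}

theorem arctan_ratio (P : Packing w) (e : Bl w) (s : Bool) (c : Fin 4) :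
    0 < Real.arctan (P.ρ e s / P.r (crn w e c)) ∧
      Real.arctan (P.ρ e s / P.r (crn w e c)) < Real.pi/2 :=
  ⟨by
    rw [← Real.arctan_zero]
    exact Real.arctan_strictMono (div_pos (P.ρ_pos e s) (P.r_pos _)),
   Real.arctan_lt_pi_div_two _⟩

theorem hh_kang_nonneg (P : Packing w) (e : Bl w) (s : Bool) (c : Fin 4) :
    0 ≤ hh (kang w P.r P.ρ e s c) := by
  unfold kang
  split_ifs
  · rw [hh_zeroV]
  · rw [hh_halfV]
  · have h := arctan_ratio P e s c
    exact (hh_posV h.1 h.2).le

/-- ROW VOL -/
theorem volume_eq {w : List (Lt Unit)} (P : Packing w) : P.volume = ENNReal.ofReal P.V := by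
  unfold Packing.volume Packing.V
  rw [ENNReal.ofReal_sum_of_nonneg fun e _ => sum_nonneg fun s _ => sum_nonneg fun c _ =>
    hh_kang_nonneg P e s c, mul_sum]
  refine sum_congr rfl fun e _ => ?_
  rw [ENNReal.ofReal_sum_of_nonneg fun s _ => sum_nonneg fun c _ => hh_kang_nonneg P e s c, mul_sum]
  refine sum_congr rfl fun s _ => ?_
  rw [ENNReal.ofReal_sum_of_nonneg fun c _ => hh_kang_nonneg P e s c, mul_sum]
  refine sum_congr rfl fun c _ => ?_
  by_cases h1 : Ext w (crn w e c)
  · rw [if_pos (Or.inl h1)]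
    unfold kang
    rw [if_pos h1, hh_zeroV, ENNReal.ofReal_zero, mul_zero]
  by_cases h2 : EndV w e s
  · rw [if_pos (Or.inr h2)]
    unfold kang
    rw [if_neg h1, if_pos h2, hh_halfV, ENNReal.ofReal_zero, mul_zero]
  rw [if_neg (by tauto)]
  unfold kang
  rw [if_neg h1, if_neg h2, hypVol_kite (P.r_pos _) (P.ρ_pos _ _)]
  unfold hh
  rw [show (2:ENNReal) = ENNReal.ofReal 2 by simp, ← ENNReal.ofReal_mul (by norm_num)]
  congr 1
  ring

theorem V_pos {w : List (Lt Unit)} (hw : Good w) (P : Packing w)
    (h : 2 ≤ (corn w [0,1] 2).length) : 0 < P.V := by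
  have _ := hw
  -- an end which does not touch the open strand
  have h1 : ∃ v : Bl w × Bool, ¬ EndV w v.1 v.2 := by
    by_contra hcon
    push Not at hcon
    have h2 := P.ends
    rw [filter_true_of_mem fun v _ => hcon v, card_univ, Fintype.card_prod, Fintype.card_bool,
      Fintype.card_fin] at h2
    omega
  obtain ⟨⟨e, s⟩, hes⟩ := h1
  -- a corner of it which is not exterior
  have h3 : ∃ c ∈ cor s, ¬ Ext w (crn w e c) := by
    by_contra hcon
    push Not at hcon
    apply hes
    unfold EndV
    rw [filter_true_of_mem hcon]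
    cases s <;> decide
  obtain ⟨c, hc, hE⟩ := h3
  have h4 : 0 < hh (kang w P.r P.ρ e s c) := by
    unfold kang
    rw [if_neg hE, if_neg hes]
    have := arctan_ratio P e s c
    exact hh_posV this.1 this.2
  unfold Packing.V
  refine sum_pos' (fun e _ => sum_nonneg fun s _ => sum_nonneg fun c _ => hh_kang_nonneg P e s c)
    ⟨e, mem_univ _, ?_⟩
  refine sum_pos' (fun s _ => sum_nonneg fun c _ => hh_kang_nonneg P e s c) ⟨s, mem_univ _, ?_⟩
  exact sum_pos' (fun c _ => hh_kang_nonneg P e s c) ⟨c, hc, h4⟩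

end ANG
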